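import Mathlib
import Pool.Agent.Results.MP_06b617_an.SeparableMonotoneConvergence

/-!
# MP_5127fd_an: suprema of increasing sequences and normality of the cone

If every increasing order bounded sequence of an ordered Banach space has a supremum, then the cone
is normal (Q1); if the space is separable, every such sequence converges in norm (Q2).

If the cone is not normal there are `0 ≤ d_n ≤ y_n` with `‖y_n‖ ≤ 2 ^ (-n)` and `‖d_n‖ ≥ n`. The
partial sums of `∑ d_n` are bounded by `∑ y_n`, and the map which takes `f ≥ 0` in `ℓ_∞` to the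
supremum of the partial sums of `∑ f_n d_n` extends to a linear map `T : ℓ_∞ → X` with closed
graph and `T e_n = d_n` (both are proved in `MP_06b617_an.SeparableMonotoneConvergence`). So the
norms `‖d_n‖` are bounded, a contradiction.
-/

set_option autoImplicit false

open Filter Topology

namespace Pool.Agent.Results.MP_5127fd_an.NormalCone

open Pool.Agent.Results.MP_06b617_an.SeparableMonotoneConvergence

/-- The cone `K` is normal: there is a constant `c > 0` such that `0 ≤ x ≤ y` implies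
`‖x‖ ≤ c ‖y‖`. -/
def Normal {X : Type*} [NormedAddCommGroup X] (K : Set X) : Prop :=
  ∃ c : ℝ, 0 < c ∧ ∀ x y : X, x ∈ K → y - x ∈ K → ‖x‖ ≤ c * ‖y‖

theorem normal {X : Type*} [NormedAddCommGroup X] [NormedSpace ℝ X] [CompleteSpace X]
    (K : Set X) (hK : IsOrderCone K) (hS : PropertyS K) : Normal K := by
  by_contra hcon
  unfold Normal at hcon
  push Not at hcon
  -- the sequences
  have h1 : ∀ n : ℕ, ∃ x y : X, x ∈ K ∧ y - x ∈ K ∧ ‖y‖ ≤ (1 / 2 : ℝ) ^ n ∧ (n : ℝ) ≤ ‖x‖ := by
    intro n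
    obtain ⟨x, y, hx, hxy, h⟩ := hcon ((n + 1) * 2 ^ n) (by positivity)
    have hy0 : 0 < ‖y‖ := by
      rw [norm_pos_iff]
      rintro rfl
      have hx0 : x = 0 := hK.salient x hx (by simpa using hxy)
      rw [hx0, norm_zero, mul_zero] at h
      exact lt_irrefl _ h
    obtain ⟨t, ht⟩ : ∃ t : ℝ, t = (1 / 2) ^ n / ‖y‖ := ⟨_, rfl⟩
    have ht0 : 0 < t := by rw [ht]; positivity
    refine ⟨t • x, t • y, hK.smul_mem t ht0.le _ hx, ?_, ?_, ?_⟩
    · rw [← smul_sub]
      exact hK.smul_mem t ht0.le _ hxy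
    · rw [norm_smul, Real.norm_of_nonneg ht0.le, ht, div_mul_cancel₀ _ hy0.ne']
    · rw [norm_smul, Real.norm_of_nonneg ht0.le, ht, div_mul_eq_mul_div, le_div_iff₀ hy0]
      have h2 : (n : ℝ) * ‖y‖ ≤ (1 / 2) ^ n * (((n + 1) * 2 ^ n) * ‖y‖) := by
        have h3 : (1 / 2 : ℝ) ^ n * 2 ^ n = 1 := by rw [← mul_pow]; norm_num
        calc (n : ℝ) * ‖y‖ ≤ (n + 1) * ‖y‖ := by gcongr; linarith
          _ = ((1 / 2 : ℝ) ^ n * 2 ^ n) * ((n + 1) * ‖y‖) := by rw [h3, one_mul]
          _ = _ := by ring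
      exact h2.trans (by gcongr)
  choose d y hd hyd hy hdn using h1
  have hsum : Summable y := by
    refine Summable.of_norm_bounded (g := fun n : ℕ => (1 / 2 : ℝ) ^ n)
      (summable_geometric_of_lt_one (by norm_num) (by norm_num)) hy
  have hyK : ∀ n, y n ∈ K := fun n => by
    have := hK.add_mem _ (hyd n) _ (hd n)
    rwa [sub_add_cancel] at this
  have hv : ∀ N, (∑' n, y n) - ∑ k ∈ Finset.range N, d k ∈ K := by
    intro N
    have h2 : ∀ M, N ≤ M → ∑ k ∈ Finset.range M, y k - ∑ k ∈ Finset.range N, d k ∈ K := by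
      intro M hM
      have h3 := sum_mem hK (Finset.range N) (fun k => y k - d k) (fun k _ => hyd k)
      have h4 := sum_mem hK (Finset.Ico N M) y (fun k _ => hyK k)
      have h5 := hK.add_mem _ h4 _ h3
      rw [Finset.sum_sub_distrib] at h5
      have h6 : ∑ k ∈ Finset.range N, y k + ∑ k ∈ Finset.Ico N M, y k =
          ∑ k ∈ Finset.range M, y k := Finset.sum_range_add_sum_Ico y hM
      rw [← h6]
      convert h5 using 1
      abel
    refine hK.closed.mem_of_tendsto ((hsum.hasSum.tendsto_sum_nat).sub_const _) ?_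
    filter_upwards [eventually_ge_atTop N] with M hM using h2 M hM
  let Tc : lp (fun _ : ℕ => ℝ) ⊤ →L[ℝ] X := ⟨T hK hS hd hv, T_cont hK hS hd hv⟩
  have hT1 : ∀ i, Tc (lp.single ⊤ i 1) = d i := fun i => T_single hK hS hd hv i
  obtain ⟨n, hn⟩ := exists_nat_gt ‖Tc‖
  have h2 : ‖d n‖ ≤ ‖Tc‖ := by
    rw [← hT1 n]
    refine (Tc.le_opNorm _).trans ?_
    have h3 : ‖(lp.single ⊤ n (1 : ℝ) : lp (fun _ : ℕ => ℝ) ⊤)‖ ≤ 1 := by
      refine lp.norm_le_of_forall_le zero_le_one fun k => ?_
      rw [lp.single_apply, Pi.single_apply]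
      split_ifs <;> simp
    calc ‖Tc‖ * _ ≤ ‖Tc‖ * 1 := by gcongr
      _ = ‖Tc‖ := mul_one _
  have h3 := hdn n
  linarith

/-- **Ordered Banach spaces in which every increasing order bounded sequence has a supremum**: the
cone is normal (Q1), and if the space is separable every such sequence converges in norm (Q2). -/
theorem result (X : Type*) [NormedAddCommGroup X] [NormedSpace ℝ X] [CompleteSpace X]
    (K : Set X) (hK : IsOrderCone K) (hS : PropertyS K) :
    Normal K ∧ (TopologicalSpace.SeparableSpace X →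
      ∀ x : ℕ → X, Increasing K x → OrderBounded K x → ∃ s, Tendsto x atTop (𝓝 s)) :=
  ⟨normal K hK hS, fun _ x hx hb =>
    Pool.Agent.Results.MP_06b617_an.SeparableMonotoneConvergence.result X K hK hS x hx hb⟩

end Pool.Agent.Results.MP_5127fd_an.NormalCone
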